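import Pool.Agent.Helper667.Sphere

set_option autoImplicit false

namespace Pool.Agent.Results.MP_71c9ee_al.GenACFails

/-! ## Definitions used in the statement -/

/-- The tuple `g` lies in `N_k(G)`: its entries generate `G` as a normal subgroup. -/
def NormGen {G : Type*} [Group G] {k : ℕ} (g : Fin k → G) : Prop :=
  Subgroup.normalClosure (Set.range g) = ⊤

/-- `d_G(G)`: the least `k` with `1 ≤ k` for which some `k`-tuple generates `G` as a normal
subgroup. -/
noncomputable def dG (G : Type*) [Group G] : ℕ :=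
  sInf {k : ℕ | 1 ≤ k ∧ ∃ g : Fin k → G, NormGen g}

/-- `b` is obtained from `a` by one elementary Andrews-Curtis transformation. -/
def ACMove {G : Type*} [Group G] {k : ℕ} (a b : Fin k → G) : Prop :=
  (∃ i j : Fin k, j ≠ i ∧
    (b = Function.update a i (a i * a j) ∨
     b = Function.update a i (a i * (a j)⁻¹) ∨
     b = Function.update a i (a j * a i) ∨
     b = Function.update a i ((a j)⁻¹ * a i))) ∨
  (∃ i : Fin k, b = Function.update a i (a i)⁻¹) ∨
  (∃ (i : Fin k) (w : G), b = Function.update a i (w⁻¹ * a i * w))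

/-- Andrews-Curtis equivalence: a finite chain of elementary transformations. -/
def ACEquiv {G : Type*} [Group G] {k : ℕ} (a b : Fin k → G) : Prop :=
  Relation.ReflTransGen ACMove a b

/-! ## Proof -/

open Matrix Metric Helper667.SLTwo Helper667.ElemGroup Helper667.Sphere
open scoped RealInnerProductSpace

/-- matrices of functions that are smooth at every point of the closed ball -/
def Sm : Subgroup (SpecialLinearGroup (Fin 2) Ah) where
  carrier := {g | ∀ x ∈ closedBall (0 : E6) 1, ∀ i j, ContDiffAt ℝ 1 (g i j) x}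
  mul_mem' := by
    intro g h hg hh x hx i j
    have : (g * h) i j = fun y => ∑ l, g i l y * h l j y := by
      funext y
      simp [Matrix.mul_apply]
    rw [this]
    exact ContDiffAt.sum (fun l _ => (hg x hx i l).mul (hh x hx l j))
  one_mem' := by
    intro x _ i j
    by_cases h : i = j
    · subst h
      have : ((1 : SpecialLinearGroup (Fin 2) Ah) i i) = fun _ => (1 : ℝ) := by
        funext y; simp
      rw [this]; exact contDiffAt_const
    · have : ((1 : SpecialLinearGroup (Fin 2) Ah) i j) = fun _ => (0 : ℝ) := by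
        funext y; simp [Matrix.one_apply_ne h]
      rw [this]; exact contDiffAt_const
  inv_mem' := by
    intro g hg x hx i j
    fin_cases i <;> fin_cases j
    · change ContDiffAt ℝ 1 ((g⁻¹) 0 0) x
      rw [inv_00]; exact hg x hx 1 1
    · change ContDiffAt ℝ 1 ((g⁻¹) 0 1) x
      rw [inv_01]; exact (hg x hx 0 1).neg
    · change ContDiffAt ℝ 1 ((g⁻¹) 1 0) x
      rw [inv_10]; exact (hg x hx 1 0).neg
    · change ContDiffAt ℝ 1 ((g⁻¹) 1 1) x
      rw [inv_11]; exact hg x hx 0 0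

theorem E12_Sm {f : Ah} (hf : ∀ x ∈ closedBall (0 : E6) 1, ContDiffAt ℝ 1 f x) :
    E12 f ∈ Sm := by
  intro x hx i j
  fin_cases i <;> fin_cases j
  · exact contDiffAt_const
  · exact hf x hx
  · exact contDiffAt_const
  · exact contDiffAt_const

theorem E21_Sm {f : Ah} (hf : ∀ x ∈ closedBall (0 : E6) 1, ContDiffAt ℝ 1 f x) :
    E21 f ∈ Sm := by
  intro x hx i j
  fin_cases i <;> fin_cases j
  · exact contDiffAt_const
  · exact contDiffAt_const
  · exact hf x hx
  · exact contDiffAt_const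

/-- restriction to the sphere -/
noncomputable def res : SpecialLinearGroup (Fin 2) Ah →* SpecialLinearGroup (Fin 2) As :=
  SpecialLinearGroup.map rho

theorem res_apply (g : SpecialLinearGroup (Fin 2) Ah) (i j : Fin 2) :
    (res g) i j = rho (g i j) := rfl

theorem res_E12 (f : Ah) : res (E12 f) = E12 (rho f) := by
  refine sl_ext ?_ ?_ ?_ ?_ <;> simp [res_apply]

theorem res_E21 (f : Ah) : res (E21 f) = E21 (rho f) := by
  refine sl_ext ?_ ?_ ?_ ?_ <;> simp [res_apply]

theorem lift_mem {g : SpecialLinearGroup (Fin 2) As} (hg : g ∈ Gr LL) :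
    ∃ g' ∈ Sm, res g' = g := by
  induction hg using Subgroup.closure_induction with
  | mem g hg =>
    have hcd := @cd_lam
    have hcdi : ∀ i : Idx, ∀ x ∈ closedBall (0 : E6) 1, ContDiffAt ℝ 1 (lam i)⁻¹ x :=
      fun i x hx => (cd_lam hx i).inv (lam_ne hx i)
    rcases hg with hg | hg
    · simp only [Set.mem_iUnion] at hg
      obtain ⟨p, ⟨i, rfl⟩, hg⟩ := hg
      rcases hg with rfl | rfl | rfl | rfl
      · exact ⟨E12 (lam i), E12_Sm (fun x hx => cd_lam hx i), res_E12 _⟩
      · exact ⟨E12 (lam i)⁻¹, E12_Sm (hcdi i), res_E12 _⟩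
      · exact ⟨E21 (lam i), E21_Sm (fun x hx => cd_lam hx i), res_E21 _⟩
      · exact ⟨E21 (lam i)⁻¹, E21_Sm (hcdi i), res_E21 _⟩
    · rcases hg with rfl | rfl
      · exact ⟨E12 1, E12_Sm (fun x _ => contDiffAt_const), res_E12 _⟩
      · exact ⟨E21 1, E21_Sm (fun x _ => contDiffAt_const), res_E21 _⟩
  | one => exact ⟨1, Sm.one_mem, map_one _⟩
  | mul a b _ _ iha ihb =>
    obtain ⟨a', h1, rfl⟩ := iha
    obtain ⟨b', h2, rfl⟩ := ihb
    exact ⟨a' * b', Sm.mul_mem h1 h2, map_mul _ _ _⟩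
  | inv a _ iha =>
    obtain ⟨a', h1, rfl⟩ := iha
    exact ⟨a'⁻¹, Sm.inv_mem h1, map_inv _ _⟩

/-- evaluation at a point -/
noncomputable def ev (x : E6) : SpecialLinearGroup (Fin 2) Ah →* SpecialLinearGroup (Fin 2) ℝ :=
  SpecialLinearGroup.map (Pi.evalRingHom _ x)

theorem ev_apply (x : E6) (g : SpecialLinearGroup (Fin 2) Ah) (i j : Fin 2) :
    (ev x g) i j = g i j x := rfl

/-- the invariant: the tuple extends to the ball without being central at a point -/
def Ext {k : ℕ} (U : Fin k → Gr LL) : Prop :=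
  ∃ T : Fin k → SpecialLinearGroup (Fin 2) Ah, (∀ l, T l ∈ Sm) ∧ (∀ l, res (T l) = (U l).1) ∧
    ∀ x ∈ closedBall (0 : E6) 1, ∃ l, ev x (T l) ∉ Subgroup.center (SpecialLinearGroup (Fin 2) ℝ)

theorem move_mem {G : Type*} [Group G] {k : ℕ} {a b : Fin k → G} (h : ACMove a b)
    (N : Subgroup G) [N.Normal] (hb : ∀ l, b l ∈ N) : ∀ l, a l ∈ N := by
  rcases h with ⟨i, j, hij, h⟩ | ⟨i, rfl⟩ | ⟨i, w, rfl⟩
  · have hj : a j ∈ N := by
      rcases h with rfl | rfl | rfl | rfl <;>
      · have := hb j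
        rwa [Function.update_of_ne hij] at this
    intro l
    by_cases hl : l = i
    · subst hl
      rcases h with rfl | rfl | rfl | rfl
      · have := hb l
        rw [Function.update_self] at this
        exact (Subgroup.mul_mem_cancel_right N hj).mp this
      · have := hb l
        rw [Function.update_self] at this
        exact (Subgroup.mul_mem_cancel_right N (N.inv_mem hj)).mp this
      · have := hb l
        rw [Function.update_self] at this
        exact (Subgroup.mul_mem_cancel_left N hj).mp this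
      · have := hb l
        rw [Function.update_self] at this
        exact (Subgroup.mul_mem_cancel_left N (N.inv_mem hj)).mp this
    · rcases h with rfl | rfl | rfl | rfl <;>
      · have := hb l
        rwa [Function.update_of_ne hl] at this
  · intro l
    have := hb l
    by_cases hl : l = i
    · subst hl
      rw [Function.update_self] at this
      simpa using this
    · rwa [Function.update_of_ne hl] at this
  · intro l
    have := hb l
    by_cases hl : l = i
    · subst hl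
      rw [Function.update_self] at this
      have h2 := Subgroup.Normal.conj_mem inferInstance _ this w
      simpa [mul_assoc] using h2
    · rwa [Function.update_of_ne hl] at this

theorem map_move {G H : Type*} [Group G] [Group H] (f : G →* H) {k : ℕ} {a b : Fin k → G}
    (h : ACMove a b) : ACMove (fun l => f (a l)) (fun l => f (b l)) := by
  have key : ∀ (i : Fin k) (x : G), (fun l => f (Function.update a i x l)) =
      Function.update (fun l => f (a l)) i (f x) := by
    intro i x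
    funext l
    by_cases hl : l = i
    · subst hl; simp
    · rw [Function.update_of_ne hl, Function.update_of_ne hl]
  rcases h with ⟨i, j, hij, h⟩ | ⟨i, rfl⟩ | ⟨i, w, rfl⟩
  · refine Or.inl ⟨i, j, hij, ?_⟩
    rcases h with rfl | rfl | rfl | rfl
    · exact Or.inl (by rw [key, map_mul])
    · exact Or.inr (Or.inl (by rw [key, map_mul, map_inv]))
    · exact Or.inr (Or.inr (Or.inl (by rw [key, map_mul])))
    · exact Or.inr (Or.inr (Or.inr (by rw [key, map_mul, map_inv])))
  · exact Or.inr (Or.inl ⟨i, by rw [key, map_inv]⟩)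
  · exact Or.inr (Or.inr ⟨i, f w, by rw [key, map_mul, map_mul, map_inv]⟩)

/-- moves lift along `res` -/
theorem lift_move {k : ℕ} {U V : Fin k → Gr LL} (h : ACMove U V)
    (T : Fin k → SpecialLinearGroup (Fin 2) Ah) (hT : ∀ l, T l ∈ Sm)
    (hTU : ∀ l, res (T l) = (U l).1) :
    ∃ T' : Fin k → SpecialLinearGroup (Fin 2) Ah, ACMove T T' ∧ (∀ l, T' l ∈ Sm) ∧
      ∀ l, res (T' l) = (V l).1 := by
  have key : ∀ (i : Fin k) (y : SpecialLinearGroup (Fin 2) Ah) (z : Gr LL), y ∈ Sm →
      res y = z.1 → (∀ l, Function.update T i y l ∈ Sm) ∧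
      ∀ l, res (Function.update T i y l) = (Function.update U i z l).1 := by
    intro i y z hy hyz
    constructor
    · intro l
      by_cases hl : l = i
      · subst hl; simpa using hy
      · rw [Function.update_of_ne hl]; exact hT l
    · intro l
      by_cases hl : l = i
      · subst hl; simpa using hyz
      · rw [Function.update_of_ne hl, Function.update_of_ne hl]; exact hTU l
  rcases h with ⟨i, j, hij, h⟩ | ⟨i, rfl⟩ | ⟨i, w, rfl⟩
  · rcases h with rfl | rfl | rfl | rfl
    · have := key i (T i * T j) (U i * U j) (Sm.mul_mem (hT i) (hT j))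
        (by rw [map_mul, hTU, hTU]; rfl)
      exact ⟨_, Or.inl ⟨i, j, hij, Or.inl rfl⟩, this.1, this.2⟩
    · have := key i (T i * (T j)⁻¹) (U i * (U j)⁻¹) (Sm.mul_mem (hT i) (Sm.inv_mem (hT j)))
        (by rw [map_mul, map_inv, hTU, hTU]; rfl)
      exact ⟨_, Or.inl ⟨i, j, hij, Or.inr (Or.inl rfl)⟩, this.1, this.2⟩
    · have := key i (T j * T i) (U j * U i) (Sm.mul_mem (hT j) (hT i))
        (by rw [map_mul, hTU, hTU]; rfl)
      exact ⟨_, Or.inl ⟨i, j, hij, Or.inr (Or.inr (Or.inl rfl))⟩, this.1, this.2⟩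
    · have := key i ((T j)⁻¹ * T i) ((U j)⁻¹ * U i) (Sm.mul_mem (Sm.inv_mem (hT j)) (hT i))
        (by rw [map_mul, map_inv, hTU, hTU]; rfl)
      exact ⟨_, Or.inl ⟨i, j, hij, Or.inr (Or.inr (Or.inr rfl))⟩, this.1, this.2⟩
  · have := key i (T i)⁻¹ (U i)⁻¹ (Sm.inv_mem (hT i)) (by rw [map_inv, hTU]; rfl)
    exact ⟨_, Or.inr (Or.inl ⟨i, rfl⟩), this.1, this.2⟩
  · obtain ⟨w', hw, hw'⟩ := lift_mem w.2
    have := key i (w'⁻¹ * T i * w') (w⁻¹ * U i * w)
      (Sm.mul_mem (Sm.mul_mem (Sm.inv_mem hw) (hT i)) hw)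
      (by rw [map_mul, map_mul, map_inv, hTU, hw']; rfl)
    exact ⟨_, Or.inr (Or.inr ⟨i, w', rfl⟩), this.1, this.2⟩

theorem ext_move {k : ℕ} {U V : Fin k → Gr LL} (h : ACMove U V) (hU : Ext U) : Ext V := by
  obtain ⟨T, h1, h2, h3⟩ := hU
  obtain ⟨T', h4, h5, h6⟩ := lift_move h T h1 h2
  refine ⟨T', h5, h6, ?_⟩
  intro x hx
  by_contra hcon
  push Not at hcon
  obtain ⟨l, hl⟩ := h3 x hx
  exact hl (move_mem (map_move (ev x) h4) _ hcon l)

theorem ext_equiv {k : ℕ} {U V : Fin k → Gr LL} (h : ACEquiv U V) (hU : Ext U) : Ext V := by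
  induction h with
  | refl => exact hU
  | tail _ hs ih => exact ext_move hs ih

/-- the essential tuple -/
noncomputable def V2 : Fin 2 → Gr LL := fun s => ⟨uu s, uu_mem s⟩

/-- the simple tuple -/
noncomputable def U2 : Fin 2 → Gr LL := ![⟨E12 1, E12_one_mem⟩, 1]

theorem ext_U2 : Ext U2 := by
  refine ⟨![E12 1, 1], ?_, ?_, ?_⟩
  · intro l
    fin_cases l
    · exact E12_Sm (fun x _ => contDiffAt_const)
    · exact Sm.one_mem
  · intro l
    fin_cases l
    · exact res_E12 1
    · exact map_one res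
  · intro x _
    refine ⟨0, ?_⟩
    rw [Matrix.SpecialLinearGroup.mem_center_iff]
    rintro ⟨r, _, hr⟩
    have h1 := congrFun (congrFun hr 0) 1
    have h2 : (ev x (E12 (1 : Ah))) 0 1 = 1 := rfl
    change (scalar (Fin 2) r) 0 1 = (ev x (E12 (1 : Ah))) 0 1 at h1
    rw [h2] at h1
    simp at h1

theorem value_bound {a b c : ℝ} (ha : |a| ≤ 1) (hb : |b| ≤ 1) (hc : |c| ≤ 1) :
    (a ^ 2 + b ^ 2 + c ^ 2) / 4 ≤
      a * ((2 + a) / 2 - (c * ((2 + a) / 2) * b + ((2 + a) / 2)⁻¹)) +
      b * ((2 + a) / 2 * b) + c * (c * ((2 + a) / 2)) := by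
  have ha' := abs_le.mp ha
  have hb' := abs_le.mp hb
  have hc' := abs_le.mp hc
  have hpos : 0 < 2 + a := by linarith [ha'.1]
  have e1 : a * ((2 + a) / 2 - (c * ((2 + a) / 2) * b + ((2 + a) / 2)⁻¹)) +
      b * ((2 + a) / 2 * b) + c * (c * ((2 + a) / 2)) =
      a ^ 2 * ((4 + a) / (2 * (2 + a))) + (2 + a) / 2 * (b ^ 2 + c ^ 2 - a * b * c) := by
    field_simp
    ring
  rw [e1]
  have h1 : 1 / 4 ≤ (4 + a) / (2 * (2 + a)) := by
    rw [div_le_div_iff₀ (by norm_num) (by positivity)]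
    linarith [ha'.2]
  have h2 : (b ^ 2 + c ^ 2) / 2 ≤ b ^ 2 + c ^ 2 - a * b * c := by
    have h3 : a * b * c ≤ |b| * |c| := by
      calc a * b * c ≤ |a * b * c| := le_abs_self _
        _ = |a| * (|b| * |c|) := by rw [abs_mul, abs_mul, mul_assoc]
        _ ≤ 1 * (|b| * |c|) := mul_le_mul_of_nonneg_right ha (by positivity)
        _ = |b| * |c| := one_mul _
    have h4 : |b| * |c| ≤ (b ^ 2 + c ^ 2) / 2 := by
      nlinarith [sq_nonneg (|b| - |c|), sq_abs b, sq_abs c]
    linarith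
  have h5 : a ^ 2 * (1 / 4) ≤ a ^ 2 * ((4 + a) / (2 * (2 + a))) :=
    mul_le_mul_of_nonneg_left h1 (sq_nonneg a)
  have h6 : (1 / 2) * ((b ^ 2 + c ^ 2) / 2) ≤ (2 + a) / 2 * (b ^ 2 + c ^ 2 - a * b * c) := by
    have h7 : (1 / 2 : ℝ) ≤ (2 + a) / 2 := by linarith [ha'.1]
    have h8 : 0 ≤ (b ^ 2 + c ^ 2) / 2 := by positivity
    exact mul_le_mul h7 h2 h8 (by linarith)
  linarith

/-- traceless parts -/
noncomputable def Fm (T : Fin 2 → SpecialLinearGroup (Fin 2) Ah) (x : E6) : E6 :=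
  WithLp.toLp 2 ![T 0 0 0 x - T 0 1 1 x, T 0 0 1 x, T 0 1 0 x,
    T 1 0 0 x - T 1 1 1 x, T 1 0 1 x, T 1 1 0 x]

theorem not_ext_V2 : ¬ Ext V2 := by
  rintro ⟨T, hT, hres, hne⟩
  have hent : ∀ (s : Fin 2) (i j : Fin 2) (x : S5), T s i j x.1 = uu s i j x := by
    intro s i j x
    have h1 : res (T s) = uu s := hres s
    have h2 : (res (T s)) i j x = uu s i j x := by rw [h1]
    exact h2
  refine Helper667.NoRetract.no_outward (Fm T) ?_ ?_ ?_
  · intro x hx
    rw [contDiffAt_piLp]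
    intro i
    fin_cases i
    · exact (hT 0 x hx 0 0).sub (hT 0 x hx 1 1)
    · exact hT 0 x hx 0 1
    · exact hT 0 x hx 1 0
    · exact (hT 1 x hx 0 0).sub (hT 1 x hx 1 1)
    · exact hT 1 x hx 0 1
    · exact hT 1 x hx 1 0
  · intro x hx h0
    obtain ⟨l, hl⟩ := hne x hx
    apply hl
    have hc : ∀ i, Fm T x i = 0 := fun i => by rw [h0]; rfl
    have k0 := hc 0
    have k1 := hc 1
    have k2 := hc 2
    have k3 := hc 3
    have k4 := hc 4
    have k5 := hc 5
    simp only [Fm] at k0 k1 k2 k3 k4 k5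
    have hz : T l 0 0 x = T l 1 1 x ∧ T l 0 1 x = 0 ∧ T l 1 0 x = 0 := by
      fin_cases l
      · exact ⟨sub_eq_zero.mp k0, k1, k2⟩
      · exact ⟨sub_eq_zero.mp k3, k4, k5⟩
    rw [Matrix.SpecialLinearGroup.mem_center_iff]
    refine ⟨T l 0 0 x, ?_, ?_⟩
    · have hd := det_eq (ev x (T l))
      simp only [ev_apply] at hd
      rw [hz.2.1, zero_mul, sub_zero, ← hz.1] at hd
      simp only [Fintype.card_fin]
      rw [sq]; exact hd
    · ext i j
      fin_cases i <;> fin_cases j
      · simp [ev_apply]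
      · simp [ev_apply, hz.2.1]
      · simp [ev_apply, hz.2.2]
      · simp [ev_apply, hz.1]
  · intro x hx
    have hxB : x ∈ closedBall (0 : E6) 1 := by rw [mem_closedBall_zero_iff]; exact hx.le
    have hin : ⟪x, Fm T x⟫ = ∑ i, x i * Fm T x i := by
      rw [PiLp.inner_apply]
      refine Finset.sum_congr rfl (fun i _ => ?_)
      simp [mul_comm]
    rw [hin]
    have hs : ∑ i, x i * Fm T x i =
        (x 0 * (T 0 0 0 x - T 0 1 1 x) + x 1 * T 0 0 1 x + x 2 * T 0 1 0 x) +
        (x 3 * (T 1 0 0 x - T 1 1 1 x) + x 4 * T 1 0 1 x + x 5 * T 1 1 0 x) := by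
      rw [Fin.sum_univ_six]
      simp only [Fm]
      change x 0 * (T 0 0 0 x - T 0 1 1 x) + x 1 * T 0 0 1 x + x 2 * T 0 1 0 x +
        x 3 * (T 1 0 0 x - T 1 1 1 x) + x 4 * T 1 0 1 x + x 5 * T 1 1 0 x = _
      ring
    rw [hs]
    have b0 := value_bound (co_le hxB 0 0) (co_le hxB 0 1) (co_le hxB 0 2)
    have b1 := value_bound (co_le hxB 1 0) (co_le hxB 1 1) (co_le hxB 1 2)
    have hnorm := norm_sq_eq x
    rw [hx] at hnorm
    have g := fun s i j => hent s i j ⟨x, hx⟩
    rw [g 0 0 0, g 0 1 1, g 0 0 1, g 0 1 0, g 1 0 0, g 1 1 1, g 1 0 1, g 1 1 0,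
      uu_00, uu_01, uu_10, uu_11, uu_00, uu_01, uu_10, uu_11]
    have c0 : x 0 = co 0 0 x := rfl
    have c1 : x 1 = co 0 1 x := rfl
    have c2 : x 2 = co 0 2 x := rfl
    have c3 : x 3 = co 1 0 x := rfl
    have c4 : x 4 = co 1 1 x := rfl
    have c5 : x 5 = co 1 2 x := rfl
    rw [c0, c1, c2, c3, c4, c5]
    simp only [rho_apply, e00, e01, e10, e11]
    linarith

theorem normGen_of (U : Fin 2 → Gr LL)
    (h : ∀ H : Subgroup (SpecialLinearGroup (Fin 2) As),
      (∀ g ∈ Gr LL, ∀ h ∈ H, g * h * g⁻¹ ∈ H) → (∀ l, (U l).1 ∈ H) → Gr LL ≤ H) :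
    NormGen U := by
  unfold NormGen
  set N := Subgroup.normalClosure (Set.range U) with hN
  have h1 := h (N.map (Gr LL).subtype) ?_ ?_
  · rw [eq_top_iff]
    intro x _
    obtain ⟨y, hy, hyx⟩ := h1 x.2
    have : y = x := Subtype.ext hyx
    rwa [← this]
  · rintro g hg _ ⟨y, hy, rfl⟩
    refine ⟨⟨g, hg⟩ * y * ⟨g, hg⟩⁻¹, ?_, by rw [map_mul, map_mul, map_inv]; rfl⟩
    exact Subgroup.Normal.conj_mem Subgroup.normalClosure_normal y hy ⟨g, hg⟩
  · intro l
    exact ⟨U l, Subgroup.subset_normalClosure ⟨l, rfl⟩, rfl⟩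

theorem normGen_U2 : NormGen U2 :=
  normGen_of U2 (fun H hn hU => le_of_one LL_inv LL_R0 H hn (hU 0))

theorem normGen_V2 : NormGen V2 :=
  normGen_of V2 (fun H hn hU => le_of_uu H hn hU)

/-- the group is perfect -/
theorem perfect : commutator (Gr LL) = ⊤ := by
  have h := le_of_one LL_inv LL_R0 ((commutator (Gr LL)).map (Gr LL).subtype) ?_ ?_
  · rw [eq_top_iff]
    intro x _
    obtain ⟨y, hy, hyx⟩ := h x.2
    have : y = x := Subtype.ext hyx
    rwa [← this]
  · rintro g hg _ ⟨y, hy, rfl⟩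
    refine ⟨⟨g, hg⟩ * y * ⟨g, hg⟩⁻¹, ?_, by rw [map_mul, map_mul, map_inv]; rfl⟩
    exact Subgroup.Normal.conj_mem inferInstance y hy ⟨g, hg⟩
  · -- E12 1 is a commutator
    have hp : ((rho (lam (Sum.inl 0)), rho (lam (Sum.inl 0))⁻¹) : As × As) ∈ LL := ⟨_, rfl⟩
    have hD := D_fst_mem hp (LL_inv _ hp)
    have hE := E12_mem LL_inv third_mem
    have hc := Subgroup.commutator_mem_commutator
      (Subgroup.mem_top (⟨_, hD⟩ : Gr LL)) (Subgroup.mem_top (⟨_, hE⟩ : Gr LL))
    rw [← commutator_def] at hc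
    refine ⟨_, hc, ?_⟩
    rw [commutatorElement_def, map_mul, map_mul, map_mul, map_inv, map_inv]
    change D _ _ (LL_inv _ hp) * E12 (rho (fun _ => (1 / 3 : ℝ))) * (D _ _ (LL_inv _ hp))⁻¹ *
      (E12 (rho (fun _ => (1 / 3 : ℝ))))⁻¹ = E12 1
    rw [conj_D, ← E12_neg, ← E12_add]
    congr 1
    funext t
    simp [lam]
    norm_num

theorem fg : Group.FG (Gr LL) := by
  rw [Group.fg_iff_subgroup_fg]
  exact (Subgroup.fg_iff _).mpr ⟨gens LL, rfl, gens_finite LL_finite⟩

/-- **Theorem.** There is a finitely generated group `G`, an integer `k ≥ max (d_G(G), 2)` and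
tuples `U, V ∈ N_k(G)` whose images in the abelianization are AC-equivalent although `U` and `V`
are not AC-equivalent in `G`: the generalised Andrews-Curtis property fails for `G`. -/
theorem result : ∃ (G : Type) (_ : Group G), Group.FG G ∧
    ∃ (k : ℕ) (U V : Fin k → G), max (dG G) 2 ≤ k ∧ NormGen U ∧ NormGen V ∧
      ACEquiv (fun i => Abelianization.of (U i)) (fun i => Abelianization.of (V i)) ∧
      ¬ ACEquiv U V := by
  refine ⟨Gr LL, inferInstance, fg, 2, U2, V2, ?_, normGen_U2, normGen_V2, ?_, ?_⟩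
  · refine max_le ?_ le_rfl
    exact Nat.sInf_le ⟨by norm_num, U2, normGen_U2⟩
  · have hsub : ∀ a b : Abelianization (Gr LL), a = b := by
      intro a b
      obtain ⟨a, rfl⟩ := QuotientGroup.mk'_surjective _ a
      obtain ⟨b, rfl⟩ := QuotientGroup.mk'_surjective _ b
      refine QuotientGroup.eq.mpr ?_
      rw [perfect]
      exact Subgroup.mem_top _
    have : (fun i => Abelianization.of (U2 i)) = fun i => Abelianization.of (V2 i) := by
      funext i; exact hsub _ _
    rw [this]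
    exact Relation.ReflTransGen.refl
  · intro h
    exact not_ext_V2 (ext_equiv h ext_U2)

end Pool.Agent.Results.MP_71c9ee_al.GenACFails
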